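import Mathlib

/-!
# Dedekind finiteness is a closed condition on the quotients of a Banach algebra

Let `A` be a unital Banach algebra (for instance `ℓ₁` of the free monoid on countably many
generators). On the set of the closed two-sided ideals of `A` consider the Wijsman topology, the
weakest topology which makes all distance functions `K ↦ d(x, K)` continuous. We show that the set
of the ideals `K` such that `A / K` is Dedekind finite is closed.

Proof. Suppose that `ab - 1 ∈ K` and `ba - 1 ∉ K`, put `δ = d(ba - 1, K) > 0`. If `K'` is close to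
`K` then `d(ba - 1, K') > δ / 2` and `ab` is very close to `1` modulo `K'`. By the Neumann series
there is `v` close to `1` with `abv = 1` modulo `K'`. If `A / K'` were Dedekind finite, we would
have `bva = 1` modulo `K'`, so `ba - 1 = b (1 - v) a` modulo `K'` has small distance from `K'`,
a contradiction.
-/

open Filter Topology Set

namespace Pool.Agent.Results.MP_332c3b_lc.ClosedDedekindFinite

/-- The closed two-sided ideals of a normed ring. -/
structure ClosedIdeal (A : Type*) [NormedRing A] where
  /-- the underlying two-sided ideal -/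
  ideal : TwoSidedIdeal A
  /-- it is closed for the norm topology -/
  isClosed : IsClosed {z : A | z ∈ ideal}

/-- The distance from `x` to the closed ideal `K`, `inf {‖x - z‖ : z ∈ K}`; it is the quotient norm
of the class of `x` in `A / K`. -/
noncomputable def distTo {A : Type*} [NormedRing A] (x : A) (K : ClosedIdeal A) : ℝ :=
  Metric.infDist x {z : A | z ∈ K.ideal}

/-- The Wijsman topology on `Ideal(A)`: the weakest topology which makes `K ↦ d(x, K)` continuous
for every `x ∈ A`. -/
noncomputable instance wijsman (A : Type*) [NormedRing A] : TopologicalSpace (ClosedIdeal A) :=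
  ⨅ x : A, TopologicalSpace.induced (distTo x) inferInstance

/-- `Ideal'(A)`: the proper closed two-sided ideals, with the subspace topology. -/
abbrev ProperClosedIdeal (A : Type*) [NormedRing A] : Type _ :=
  {K : ClosedIdeal A // K.ideal ≠ ⊤}

/-- The quotient ring `A / K` is Dedekind finite: `ab = 1` implies `ba = 1` for all its
elements. -/
def QuotientDedekindFinite {A : Type*} [NormedRing A] (K : ClosedIdeal A) : Prop :=
  ∀ a b : K.ideal.ringCon.Quotient, a * b = 1 → b * a = 1

variable {A : Type*} [NormedRing A]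

lemma continuous_distTo (x : A) : Continuous (distTo x : ClosedIdeal A → ℝ) :=
  continuous_iInf_dom (i := x) continuous_induced_dom

lemma quotientDedekindFinite_iff (K : ClosedIdeal A) :
    QuotientDedekindFinite K ↔ ∀ a b : A, a * b - 1 ∈ K.ideal → b * a - 1 ∈ K.ideal := by
  have key : ∀ a b : A, a * b - 1 ∈ K.ideal ↔
      ((a : K.ideal.ringCon.Quotient) * (b : K.ideal.ringCon.Quotient) = 1) := by
    intro a b
    rw [← RingCon.coe_mul, ← RingCon.coe_one, RingCon.eq, TwoSidedIdeal.rel_iff]
  constructor
  · intro h a b hab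
    rw [key] at hab ⊢
    exact h _ _ hab
  · intro h a b
    induction a using Quotient.inductionOn with
    | _ a =>
      induction b using Quotient.inductionOn with
      | _ b =>
        intro hab
        exact (key b a).1 (h a b ((key a b).2 hab))

/-- If `u` is close to `1` modulo `K`, then `u` has a right inverse modulo `K` close to `1`. -/
lemma exists_inverse [CompleteSpace A] (K : ClosedIdeal A) (u : A) (ε : ℝ) (hε : ε ≤ 1 / 2)
    (hu : distTo (u - 1) K < ε) :
    ∃ v : A, u * v - 1 ∈ K.ideal ∧ ‖1 - v‖ ≤ 2 * ε * (‖(1 : A)‖ + 1) := by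
  have hne : ({z : A | z ∈ K.ideal}).Nonempty := ⟨0, K.ideal.zero_mem⟩
  obtain ⟨k, hk, hk2⟩ := (Metric.infDist_lt_iff hne).1 hu
  have hε0 : 0 < ε := lt_of_le_of_lt dist_nonneg hk2
  rw [dist_eq_norm] at hk2
  -- `u - k = 1 - w`
  set w : A := k - (u - 1) with hw
  have hwn : ‖w‖ < ε := by
    rw [hw, ← norm_neg]
    simpa using hk2
  have hw1 : ‖w‖ < 1 := by linarith
  have hinv : (1 - w) * (∑' n : ℕ, w ^ n) = 1 := by
    exact mul_neg_geom_series w hw1
  set v : A := ∑' n : ℕ, w ^ n with hv
  have huk : u - k = 1 - w := by rw [hw]; abel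
  refine ⟨v, ?_, ?_⟩
  · have h1 : u * v - 1 = k * v := by
      have : (u - k) * v = 1 := by rw [huk]; exact hinv
      rw [sub_mul] at this
      rw [← this]
      abel
    rw [h1]
    exact K.ideal.mul_mem_right _ _ hk
  · have h2 : ‖v‖ ≤ 2 * (‖(1 : A)‖ + 1) := by
      have h3 := tsum_geometric_le_of_norm_lt_one w hw1
      have h4 : (1 - ‖w‖)⁻¹ ≤ 2 := by
        rw [inv_le_comm₀ (by linarith) (by norm_num)]
        linarith
      have h5 := norm_nonneg (1 : A)
      rw [← hv] at h3
      linarith
    have h6 : 1 - v = - (w * v) := by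
      rw [sub_mul, one_mul] at hinv
      rw [← hinv]
      abel
    rw [h6, norm_neg]
    calc ‖w * v‖ ≤ ‖w‖ * ‖v‖ := norm_mul_le _ _
      _ ≤ ε * (2 * (‖(1 : A)‖ + 1)) := by
          apply mul_le_mul hwn.le h2 (norm_nonneg _) hε0.le
      _ = 2 * ε * (‖(1 : A)‖ + 1) := by ring

lemma isClosed_dedekindFinite [CompleteSpace A] :
    IsClosed {K : ClosedIdeal A | QuotientDedekindFinite K} := by
  rw [← isOpen_compl_iff, isOpen_iff_mem_nhds]
  intro K hK
  simp only [mem_compl_iff, mem_ofPred_eq, quotientDedekindFinite_iff] at hK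
  push Not at hK
  obtain ⟨a, b, hab, hba⟩ := hK
  have hne : ({z : A | z ∈ K.ideal}).Nonempty := ⟨0, K.ideal.zero_mem⟩
  have hpos : 0 < distTo (b * a - 1) K := (K.isClosed.notMem_iff_infDist_pos hne).1 hba
  have h0 : distTo (a * b - 1) K = 0 := Metric.infDist_zero_of_mem hab
  set δ := distTo (b * a - 1) K with hδ
  -- choose the tolerance
  set C : ℝ := ‖b‖ * (2 * (‖(1 : A)‖ + 1)) * ‖a‖ with hC
  have hC0 : 0 ≤ C := by positivity
  set ε : ℝ := min (1 / 2) (δ / (2 * (C + 1))) with hεdef
  have hε : 0 < ε := lt_min (by norm_num) (by positivity)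
  have hU1 : ∀ᶠ K' in 𝓝 K, distTo (a * b - 1) K' < ε := by
    apply (continuous_distTo (a * b - 1)).continuousAt.eventually_lt_const
    rw [h0]
    exact hε
  have hU2 : ∀ᶠ K' in 𝓝 K, δ / 2 < distTo (b * a - 1) K' := by
    apply (continuous_distTo (b * a - 1)).continuousAt.eventually_const_lt
    rw [← hδ]
    linarith
  filter_upwards [hU1, hU2] with K' h1 h2
  simp only [mem_compl_iff, mem_ofPred_eq, quotientDedekindFinite_iff]
  intro hDF
  obtain ⟨v, hv1, hv2⟩ := exists_inverse K' (a * b) ε (min_le_left _ _) h1
  have h3 : b * v * a - 1 ∈ K'.ideal := by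
    apply hDF
    rw [← mul_assoc]
    exact hv1
  have h4 : distTo (b * a - 1) K' ≤ ‖b * (1 - v) * a‖ := by
    have h5 := Metric.infDist_le_dist_of_mem (x := b * a - 1)
      (s := {z : A | z ∈ K'.ideal}) (h := h3)
    refine h5.trans (le_of_eq ?_)
    rw [dist_eq_norm]
    congr 1
    noncomm_ring
  have h6 : ‖b * (1 - v) * a‖ ≤ ε * C := by
    calc ‖b * (1 - v) * a‖ ≤ ‖b‖ * ‖1 - v‖ * ‖a‖ :=
          (norm_mul_le _ _).trans (mul_le_mul_of_nonneg_right (norm_mul_le _ _) (norm_nonneg _))
      _ ≤ ‖b‖ * (2 * ε * (‖(1 : A)‖ + 1)) * ‖a‖ := by gcongr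
      _ = ε * C := by rw [hC]; ring
  have h7 : ε * C < δ / 2 := by
    have h8 : ε ≤ δ / (2 * (C + 1)) := min_le_right _ _
    have h9 : ε * (2 * (C + 1)) ≤ δ := by
      rwa [le_div_iff₀ (by positivity)] at h8
    nlinarith
  linarith

/-- For every unital Banach algebra `A` (any complete normed ring with unit) the set of the proper
closed two-sided ideals `K` with `A / K` Dedekind finite is closed in the space `Ideal'(A)` of the
proper closed two-sided ideals with the Wijsman topology. -/
theorem result (A : Type*) [NormedRing A] [CompleteSpace A] :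
    IsClosed {K : ProperClosedIdeal A | QuotientDedekindFinite K.1} :=
  isClosed_dedekindFinite.preimage continuous_subtype_val

end Pool.Agent.Results.MP_332c3b_lc.ClosedDedekindFinite
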